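import Pool.Agent.H47.SQ.Targets3

/-!
# Search on random k-CNFs (MP_c62aed_lc), row XFR: a wrong value is not refuted (after row RSW of
helper42)
-/

set_option autoImplicit false

namespace Pool.Agent.H69.SQR

open Finset Pool.Agent.H97.RK Pool.Agent.H41.SS Pool.Agent.H47.SR
open Pool.Agent.H47.PL (Sat Agr Con dm nsol Os)
open Pool.Agent.H47.SQ (Derivation Refuted)

private theorem mem_pre {n i : ℕ} {v : Fin n} : v ∈ pre n i ↔ v.1 < i := by
  unfold pre
  simp

private theorem pre_mono' {n i j : ℕ} (h : i ≤ j) : pre n i ⊆ pre n j := by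
  intro v hv
  rw [mem_pre] at hv ⊢
  omega

theorem pf_XFR (hSOL : T_SOL) (hXUP : T_XUP) (hXNC : T_XNC) : T_XFR := by
  classical
  intro n k m F t t₁ d u u₁ b₀ Q a s ht₁ ht huu hun hQ hb hQb ha hs τ hsat hBG v W J hv hst hInw
    hvW hRef
  obtain ⟨S, r, line, hSs, hr, hder, hlr⟩ := hRef
  obtain ⟨y, hyv, hyu⟩ : ∃ y : Fin n → Bool, y v = !τ v ∧ ∀ w, w ≠ v → y w = τ w :=
    ⟨Function.update τ v (!τ v), by simp, fun w hw => by simp [hw]⟩
  have hvn : v ∉ pre n v.1 ∪ W := by
    rw [mem_union, mem_pre]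
    rintro (h | h)
    · exact lt_irrefl _ h
    · exact hvW h
  have hsta : Sta F (2 * t) 0 y (pre n v.1) W J :=
    (hSOL n k m F (2 * t) 0 (8 * t) (by omega) (by omega) (by omega)).2.2.2 τ y (pre n v.1) W J v
      hst hvn hyu
  have hdy : dst y τ ≤ 1 := by
    unfold dst
    have h1 : (univ.filter fun w => y w ≠ τ w) ⊆ {v} := by
      intro w hw
      rw [mem_filter] at hw
      rw [mem_singleton]
      by_contra h
      exact hw.2 (hyu w h)
    exact (Finset.card_le_card h1).trans (by simp)
  have hf1 : ∀ P : Finset (Fin n), (P.filter fun w => y w ≠ τ w).card ≤ 1 := by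
    intro P
    refine le_trans (Finset.card_le_card ?_) hdy
    intro w hw
    rw [mem_filter] at hw ⊢
    exact ⟨mem_univ _, hw.2⟩
  have hgy : GdB F t t₁ d u u₁ y := hBG.1 y ⟨(hf1 _).trans (by omega), (hf1 _).trans (by omega)⟩
  have hge : GdE F t t₁ u₁ y := hBG.2 y hdy
  obtain ⟨y', W', J', -, hInw', hy', hyW', hsta'⟩ := hXUP n k m F t t₁ d u u₁ y ht huu hun
    (by omega) hgy hge v.1 (n - u) y W J hsta hInw (fun _ _ => rfl) hv le_rfl
  have hfal : Falsified (line r) y' := by
    intro l hl
    have h1 := hlr l hl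
    rw [mem_insert] at h1
    rcases h1 with h1 | h1
    · have h2 : l.1 = v := congrArg Prod.fst h1
      have h3 : (!l.2) = !τ v := congrArg Prod.snd h1
      rw [h2, hy' v (mem_union_left _ (mem_pre.2 (Nat.lt_succ_self _))), hyv, ← h3]
      cases l.2 <;> simp
    · unfold gr at h1
      obtain ⟨w, hw, hwl⟩ := mem_image.1 h1
      have h2 : w = l.1 := congrArg Prod.fst hwl
      have h3 : τ w = !l.2 := congrArg Prod.snd hwl
      rw [mem_pre] at hw
      have h4 : w ≠ v := by
        intro h
        rw [h] at hw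
        exact lt_irrefl _ hw
      rw [← h2, hy' w (mem_union_left _ (mem_pre.2 (by omega))), hyu w h4, h3]
      cases l.2 <;> simp
  have hvs : vs (line r) ⊆ pre n (n - u) := by
    intro w hw
    obtain ⟨l, hl, rfl⟩ := Finset.mem_image.1 hw
    have h1 := hlr l hl
    rw [mem_insert] at h1
    rw [mem_pre]
    rcases h1 with h1 | h1
    · have h2 : l.1 = v := congrArg Prod.fst h1
      rw [h2]
      exact hv
    · unfold gr at h1
      obtain ⟨w, hw, hwl⟩ := mem_image.1 h1
      have h2 : w = l.1 := congrArg Prod.fst hwl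
      rw [mem_pre] at hw
      rw [← h2]
      omega
  have hW2c : W'.card ≤ 4 * t := by
    have h1 := hsta'.crd
    have h2 := hsta'.lt
    omega
  have hgood : ∀ z : Fin n → Bool, (∀ w ∈ pre n (n - u), z w = y' w) →
      GdB F t t₁ d u u₁ z := by
    intro z hz
    refine hBG.1 z ⟨?_, ?_⟩
    · have h1 : ((pre n (n - u)).filter fun w => z w ≠ τ w) ⊆ W' ∪ {v} := by
        intro w hw
        rw [mem_filter] at hw
        by_contra h
        simp only [mem_union, mem_singleton, not_or] at h
        apply hw.2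
        rw [hz w hw.1, hyW' w h.1, hyu w h.2]
      have h2 := Finset.card_le_card h1
      have h3 := Finset.card_union_le W' {v}
      rw [Finset.card_singleton] at h3
      omega
    · have h1 : ((pre n (n - u₁)).filter fun w => z w ≠ τ w) ⊆ (W' ∩ pre n (n - u₁)) ∪ {v} := by
        intro w hw
        rw [mem_filter] at hw
        by_contra h
        simp only [mem_union, mem_singleton, not_or, mem_inter, not_and] at h
        apply hw.2
        rw [hz w (pre_mono' (by omega) hw.1), hyW' w (fun h5 => h.1 h5 hw.1), hyu w h.2]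
      have h2 := Finset.card_le_card h1
      have h3 := Finset.card_union_le (W' ∩ pre n (n - u₁)) {v}
      rw [Finset.card_singleton] at h3
      have h4 := hInw'.1
      omega
  have h1 := hXNC n k m F t t₁ d u u₁ b₀ Q (by omega) huu hun hQ hb hQb a S line ha hder y' W' J'
    hsta' hInw'.1 hgood r hr hfal hvs
  have hQ1 : (1 : ℝ) ≤ Q := by exact_mod_cast hQ
  have h2 : (0 : ℝ) ≤ 1 - 1 / (4 * (Q : ℝ)) := by
    rw [sub_nonneg, div_le_one (by positivity)]
    linarith
  have h3 : (S : ℝ) * ((2 : ℝ) ^ (4 * t) * (1 - 1 / (4 * (Q : ℝ))) ^ (u - (b₀ + d + 6 * t))) ≤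
      s * ((2 : ℝ) ^ (4 * t) * (1 - 1 / (4 * (Q : ℝ))) ^ (u - (b₀ + d + 6 * t))) := by
    apply mul_le_mul_of_nonneg_right
    · exact_mod_cast hSs
    · exact mul_nonneg (by positivity) (pow_nonneg h2 _)
  linarith

end Pool.Agent.H69.SQR
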